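import Mathlib

set_option autoImplicit false
open MeasureTheory Set Metric Filter Topology TopologicalSpace
open scoped ENNReal NNReal

namespace Pool.Agent.X91.TK

abbrev E (n : ℕ) : Type := EuclideanSpace ℝ (Fin n)

/-- The nonempty compact sets which contain a translate of every member of `L`. -/
def Cont {n : ℕ} (L : Set (Set (E n))) : Set (NonemptyCompacts (E n)) :=
  {K | ∀ l ∈ L, ∃ x : E n, ∀ y ∈ l, x + y ∈ K}

/-- `K` is covered by finitely many open balls of total weight less than `c`, a ball of radius `r`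
having weight `ψ r`. -/
def Small {n : ℕ} (ψ : ℝ → ℝ≥0∞) (c : ℝ≥0∞) (K : Set (E n)) : Prop :=
  ∃ (N : ℕ) (x : Fin N → E n) (r : Fin N → ℝ), K ⊆ ⋃ i, ball (x i) (r i) ∧ ∑ i, ψ (r i) < c

variable {n : ℕ}

theorem small_of_fintype {ψ : ℝ → ℝ≥0∞} {c : ℝ≥0∞} {K : Set (E n)} {ι : Type*} [Fintype ι]
    (x : ι → E n) (r : ι → ℝ) (hK : K ⊆ ⋃ i, ball (x i) (r i)) (hc : ∑ i, ψ (r i) < c) :
    Small ψ c K := by
  classical
  let e := Fintype.equivFin ι
  refine ⟨Fintype.card ι, x ∘ e.symm, r ∘ e.symm, ?_, ?_⟩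
  · intro y hy
    obtain ⟨i, hi⟩ := mem_iUnion.1 (hK hy)
    exact mem_iUnion.2 ⟨e i, by simpa using hi⟩
  · have : ∑ i, ψ ((r ∘ e.symm) i) = ∑ i, ψ (r i) :=
      Equiv.sum_comp e.symm (fun i => ψ (r i))
    rw [this]
    exact hc

theorem Small.mono {ψ : ℝ → ℝ≥0∞} {c c' : ℝ≥0∞} {K K' : Set (E n)} (h : Small ψ c K)
    (hK : K' ⊆ K) (hc : c ≤ c') : Small ψ c' K' := by
  obtain ⟨N, x, r, h1, h2⟩ := h
  exact ⟨N, x, r, hK.trans h1, h2.trans_le hc⟩

/-- Smallness is an open condition. -/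
theorem isOpen_small (ψ : ℝ → ℝ≥0∞) (c : ℝ≥0∞) :
    IsOpen {K : NonemptyCompacts (E n) | Small ψ c (K : Set (E n))} := by
  rw [Metric.isOpen_iff]
  rintro K ⟨N, x, r, h1, h2⟩
  have hU : IsOpen (⋃ i, ball (x i) (r i)) := isOpen_iUnion fun i => isOpen_ball
  obtain ⟨δ, hδ, hδU⟩ := K.isCompact.exists_thickening_subset_open hU h1
  refine ⟨δ, hδ, fun K' hK' => ⟨N, x, r, ?_, h2⟩⟩
  intro y hy
  apply hδU
  rw [mem_ball, NonemptyCompacts.dist_eq] at hK'
  obtain ⟨z, hz, hyz⟩ := exists_dist_lt_of_hausdorffDist_lt hy hK'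
    (hausdorffEDist_ne_top_of_nonempty_of_bounded K'.nonempty K.nonempty
      K'.isCompact.isBounded K.isCompact.isBounded)
  exact mem_thickening_iff.2 ⟨z, hz, hyz⟩

/-- The space is closed. -/
theorem isClosed_cont (L : Set (Set (E n))) : IsClosed (Cont L) := by
  apply IsSeqClosed.isClosed
  intro K K₀ hK hlim l hl
  rcases l.eq_empty_or_nonempty with rfl | ⟨y₀, hy₀⟩
  · exact ⟨0, fun y hy => absurd hy (notMem_empty y)⟩
  have hx : ∀ j, ∃ x : E n, ∀ y ∈ l, x + y ∈ K j := fun j => hK j l hl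
  choose x hx using hx
  obtain ⟨R, hR⟩ := K₀.isCompact.isBounded.subset_closedBall (0 : E n)
  have hd : Tendsto (fun j => dist (K j) K₀) atTop (𝓝 0) := tendsto_iff_dist_tendsto_zero.1 hlim
  have hnear : ∀ j, ∀ y ∈ (K j : Set (E n)), infDist y (K₀ : Set (E n)) ≤ dist (K j) K₀ := by
    intro j y hy
    rw [NonemptyCompacts.dist_eq]
    exact infDist_le_hausdorffDist_of_mem hy
      (hausdorffEDist_ne_top_of_nonempty_of_bounded (K j).nonempty K₀.nonempty
        (K j).isCompact.isBounded K₀.isCompact.isBounded)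
  -- the translates are bounded
  have hev : ∀ᶠ j in atTop, x j ∈ closedBall (0 : E n) (R + 1 + ‖y₀‖) := by
    have h1 : ∀ᶠ j in atTop, dist (K j) K₀ < 1 := hd.eventually (gt_mem_nhds one_pos)
    filter_upwards [h1] with j hj
    have h2 := hnear j _ (hx j y₀ hy₀)
    obtain ⟨z, hz, hz2⟩ := (infDist_lt_iff K₀.nonempty).1 (h2.trans_lt hj)
    have h3 : ‖z‖ ≤ R := by simpa using hR hz
    rw [mem_closedBall_zero_iff]
    have h4 : ‖x j + y₀ - z‖ < 1 := by rwa [← dist_eq_norm]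
    calc ‖x j‖ = ‖(x j + y₀ - z) + z - y₀‖ := by congr 1; abel
      _ ≤ ‖(x j + y₀ - z) + z‖ + ‖y₀‖ := norm_sub_le _ _
      _ ≤ ‖x j + y₀ - z‖ + ‖z‖ + ‖y₀‖ := by gcongr; exact norm_add_le _ _
      _ ≤ R + 1 + ‖y₀‖ := by linarith
  obtain ⟨a, -, φ, hφ, hφa⟩ :=
    (isCompact_closedBall (0 : E n) (R + 1 + ‖y₀‖)).tendsto_subseq' hev.frequently
  refine ⟨a, fun y hy => ?_⟩
  have hcl : IsClosed (K₀ : Set (E n)) := K₀.isCompact.isClosed
  rw [← SetLike.mem_coe, hcl.mem_iff_infDist_zero K₀.nonempty]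
  have h1 : Tendsto (fun j => infDist (x (φ j) + y) (K₀ : Set (E n))) atTop
      (𝓝 (infDist (a + y) (K₀ : Set (E n)))) := by
    have := (continuous_infDist_pt (K₀ : Set (E n))).tendsto (a + y)
    exact this.comp (hφa.add_const y)
  have h2 : Tendsto (fun j => infDist (x (φ j) + y) (K₀ : Set (E n))) atTop (𝓝 0) := by
    refine squeeze_zero (fun j => infDist_nonneg) (fun j => hnear _ _ (hx _ y hy)) ?_
    exact hd.comp hφ.tendsto_atTop
  exact tendsto_nhds_unique h1 h2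

end Pool.Agent.X91.TK
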