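import Pool.Agent.X91.TK.Law

set_option autoImplicit false
open MeasureTheory Set Metric Filter Topology TopologicalSpace
open scoped ENNReal NNReal

namespace Pool.Agent.X91.TK

variable {n : ℕ}

/-- The weight `r ^ s`. -/
noncomputable def pw (s : ℝ) : ℝ → ℝ≥0∞ := fun r => ENNReal.ofReal r ^ s

open Measure in
theorem small_of_measure_zero {K : Set (E n)} (hK : IsCompact K) {s : ℝ} (hs : 0 < s)
    (h : μH[s] K = 0) {c : ℝ≥0∞} (hc : 0 < c) : Small (pw s) c K := by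
  classical
  obtain ⟨c', hc'0, hc'⟩ := ENNReal.lt_iff_exists_nnreal_btwn.1 hc
  have hc'0 : (0 : ℝ≥0∞) < c' := hc'0
  -- cover
  have h1 : (⨅ (t : ℕ → Set (E n)) (_ : K ⊆ ⋃ n, t n) (_ : ∀ n, ediam (t n) ≤ 1),
      ∑' n, ⨆ _ : (t n).Nonempty, ediam (t n) ^ s) ≤ 0 := by
    rw [hausdorffMeasure_apply] at h
    have h2 := le_of_eq h
    have h3 := iSup₂_le_iff.1 h2 1 one_pos
    exact h3
  have h2 : (⨅ (t : ℕ → Set (E n)) (_ : K ⊆ ⋃ n, t n) (_ : ∀ n, ediam (t n) ≤ 1),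
      ∑' n, ⨆ _ : (t n).Nonempty, ediam (t n) ^ s) < (c' / 2 : ℝ≥0∞) :=
    h1.trans_lt (ENNReal.div_pos hc'0.ne' (by norm_num))
  simp only [iInf_lt_iff] at h2
  obtain ⟨t, htK, htd, hts⟩ := h2
  obtain ⟨ε, hε0, hεs⟩ := ENNReal.exists_pos_sum_of_countable (ε := (c' / 2 : ℝ≥0∞))
    (ENNReal.div_pos hc'0.ne' (by norm_num)).ne' ℕ
  -- balls
  have hball : ∀ i, ∃ (x : E n) (ρ : ℝ), t i ⊆ ball x ρ ∧
      ENNReal.ofReal ρ ^ s ≤ (⨆ _ : (t i).Nonempty, ediam (t i) ^ s) + ε i := by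
    intro i
    rcases (t i).eq_empty_or_nonempty with he | ⟨x, hx⟩
    · refine ⟨0, 0, by rw [he]; exact empty_subset _, ?_⟩
      rw [ENNReal.ofReal_zero, ENNReal.zero_rpow_of_pos hs]
      exact zero_le
    · have hlt : ediam (t i) < ⊤ := (htd i).trans_lt ENNReal.one_lt_top
      have hcont : Continuous fun x : ℝ≥0∞ => x ^ s := ENNReal.continuous_rpow_const
      have hfin : ediam (t i) ^ s ≠ ⊤ := ENNReal.rpow_ne_top_of_nonneg hs.le hlt.ne
      have hev : ∀ᶠ y in 𝓝[>] (ediam (t i)), y ^ s < ediam (t i) ^ s + ε i := by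
        have h3 : ediam (t i) ^ s < ediam (t i) ^ s + ε i :=
          ENNReal.lt_add_right hfin (by exact_mod_cast (hε0 i).ne')
        exact nhdsWithin_le_nhds (hcont.tendsto _ (gt_mem_nhds h3))
      have hev2 : ∀ᶠ y in 𝓝[>] (ediam (t i)), y < ⊤ :=
        nhdsWithin_le_nhds (gt_mem_nhds hlt)
      have hev3 : ∀ᶠ y in 𝓝[>] (ediam (t i)), ediam (t i) < y := self_mem_nhdsWithin
      have : (𝓝[>] (ediam (t i))).NeBot := nhdsGT_neBot_of_exists_gt ⟨⊤, hlt⟩
      obtain ⟨y, ⟨hy1, hy2⟩, hy3⟩ := ((hev.and hev2).and hev3).exists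
      refine ⟨x, y.toReal, ?_, ?_⟩
      · intro z hz
        rw [mem_ball, ← ENNReal.ofReal_lt_iff_lt_toReal dist_nonneg hy2.ne, ← edist_dist]
        exact (edist_le_ediam_of_mem hz hx).trans_lt hy3
      · rw [ENNReal.ofReal_toReal hy2.ne]
        have h4 : (⨆ _ : (t i).Nonempty, ediam (t i) ^ s) = ediam (t i) ^ s :=
          ciSup_pos (f := fun _ : (t i).Nonempty => ediam (t i) ^ s) ⟨x, hx⟩
        rw [h4]
        exact hy1.le
  choose x ρ hsub hρ using hball
  obtain ⟨T, hT⟩ := hK.elim_finite_subcover (fun i => ball (x i) (ρ i)) (fun i => isOpen_ball)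
    (htK.trans (iUnion_mono hsub))
  refine small_of_fintype (ι := T) (fun i => x i) (fun i => ρ i) ?_ ?_
  · intro y hy
    obtain ⟨i, hi, hyi⟩ := mem_iUnion₂.1 (hT hy)
    exact mem_iUnion.2 ⟨⟨i, hi⟩, hyi⟩
  · calc ∑ i : T, pw s (ρ i) = ∑ i ∈ T, pw s (ρ i) := Finset.sum_coe_sort T (fun i => pw s (ρ i))
      _ ≤ ∑' i, pw s (ρ i) := ENNReal.sum_le_tsum T
      _ ≤ ∑' i, ((⨆ _ : (t i).Nonempty, ediam (t i) ^ s) + ε i) :=
          ENNReal.tsum_le_tsum fun i => hρ i
      _ = (∑' i, ⨆ _ : (t i).Nonempty, ediam (t i) ^ s) + ∑' i, (ε i : ℝ≥0∞) := ENNReal.tsum_add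
      _ < c' / 2 + c' / 2 := ENNReal.add_lt_add hts hεs
      _ = c' := ENNReal.add_halves _
      _ < c := hc'

open Measure in
theorem measure_zero_of_small {K : Set (E n)} {s : ℝ} (hs : 0 < s)
    (h : ∀ c : ℝ≥0∞, 0 < c → Small (pw s) c K) : μH[s] K = 0 := by
  have hpos : ∀ m : ℕ, (0 : ℝ≥0∞) < ((m : ℝ≥0∞) + 1)⁻¹ := fun m =>
    ENNReal.inv_pos.2 (ENNReal.add_ne_top.2 ⟨ENNReal.natCast_ne_top _, ENNReal.one_ne_top⟩)
  choose N x r hcov hsum using fun m : ℕ => h ((m : ℝ≥0∞) + 1)⁻¹ (hpos m)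
  have hlim : Tendsto (fun m : ℕ => ((m : ℝ≥0∞) + 1)⁻¹) atTop (𝓝 0) := by
    have h1 := (tendsto_add_atTop_iff_nat (f := fun m : ℕ => ((m : ℝ≥0∞))⁻¹) 1).2
      ENNReal.tendsto_inv_nat_nhds_zero
    refine h1.congr fun m => ?_
    push_cast
    rfl
  have hdiam : ∀ m i, ediam (ball (x m i) (r m i)) ≤ 2 * ENNReal.ofReal (r m i) := by
    intro m i
    rcases le_or_gt (r m i) 0 with h0 | h0
    · rw [ball_eq_empty.2 h0, ediam_empty]
      exact zero_le
    · refine ediam_le fun y hy z hz => ?_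
      rw [mem_ball] at hy hz
      rw [edist_dist]
      calc ENNReal.ofReal (dist y z) ≤ ENNReal.ofReal (2 * r m i) := by
            apply ENNReal.ofReal_le_ofReal
            have := dist_triangle_right y z (x m i)
            linarith
        _ = 2 * ENNReal.ofReal (r m i) := by
            rw [ENNReal.ofReal_mul (by norm_num)]
            norm_num
  have hr : ∀ m i, ENNReal.ofReal (r m i) ≤ (((m : ℝ≥0∞) + 1)⁻¹) ^ (1 / s) := by
    intro m i
    have h1 : ENNReal.ofReal (r m i) ^ s ≤ ((m : ℝ≥0∞) + 1)⁻¹ :=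
      (Finset.single_le_sum (f := fun i => pw s (r m i)) (fun _ _ => zero_le)
        (Finset.mem_univ i)).trans (hsum m).le
    calc ENNReal.ofReal (r m i) = (ENNReal.ofReal (r m i) ^ s) ^ (1 / s) := by
          rw [← ENNReal.rpow_mul, mul_one_div_cancel hs.ne', ENNReal.rpow_one]
      _ ≤ _ := ENNReal.rpow_le_rpow h1 (by positivity)
  have key := hausdorffMeasure_le_liminf_sum (ι := fun m => Fin (N m)) s K
    (l := atTop) (fun m : ℕ => 2 * (((m : ℝ≥0∞) + 1)⁻¹) ^ (1 / s)) (by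
      have h1 : Tendsto (fun m : ℕ => (((m : ℝ≥0∞) + 1)⁻¹) ^ (1 / s)) atTop (𝓝 0) := by
        have := (ENNReal.continuous_rpow_const (y := 1 / s)).tendsto 0
        rw [ENNReal.zero_rpow_of_pos (by positivity)] at this
        exact this.comp hlim
      have h2 := ENNReal.Tendsto.const_mul (a := 2) h1 (Or.inr (by norm_num))
      simpa using h2) (fun m i => ball (x m i) (r m i))
    (Eventually.of_forall fun m i => (hdiam m i).trans (by gcongr; exact hr m i))
    (Eventually.of_forall fun m => hcov m)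
  refine le_antisymm (key.trans ?_) zero_le
  have hb : ∀ m : ℕ, ∑ i, ediam (ball (x m i) (r m i)) ^ s ≤ 2 ^ s * ((m : ℝ≥0∞) + 1)⁻¹ := by
    intro m
    calc ∑ i, ediam (ball (x m i) (r m i)) ^ s ≤ ∑ i, 2 ^ s * pw s (r m i) := by
          apply Finset.sum_le_sum
          intro i _
          rw [pw, ← ENNReal.mul_rpow_of_nonneg _ _ hs.le]
          exact ENNReal.rpow_le_rpow (hdiam m i) hs.le
      _ = 2 ^ s * ∑ i, pw s (r m i) := by rw [Finset.mul_sum]
      _ ≤ _ := by gcongr; exact (hsum m).le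
  have hlim2 : Tendsto (fun m : ℕ => (2 : ℝ≥0∞) ^ s * ((m : ℝ≥0∞) + 1)⁻¹) atTop (𝓝 0) := by
    have h2 := ENNReal.Tendsto.const_mul (a := (2 : ℝ≥0∞) ^ s) hlim
      (Or.inr (ENNReal.rpow_ne_top_of_nonneg hs.le (by norm_num)))
    simpa using h2
  calc liminf (fun m : ℕ => ∑ i, ediam (ball (x m i) (r m i)) ^ s) atTop
      ≤ liminf (fun m : ℕ => (2 : ℝ≥0∞) ^ s * ((m : ℝ≥0∞) + 1)⁻¹) atTop :=
        liminf_le_liminf (Eventually.of_forall hb)
    _ = 0 := hlim2.liminf_eq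

/-- `dimH K ≤ s` when `K` has covers by balls of small weight. -/
theorem dimH_le_of_small {K : Set (E n)} {s : ℝ≥0} (hs : 0 < s)
    (h : ∀ c : ℝ≥0∞, 0 < c → Small (pw s) c K) : dimH K ≤ s := by
  apply dimH_le_of_hausdorffMeasure_ne_top
  rw [measure_zero_of_small (by exact_mod_cast hs) h]
  exact ENNReal.zero_ne_top

theorem small_of_dimH_lt {K : Set (E n)} (hK : IsCompact K) {s : ℝ≥0} (h : dimH K < s)
    {c : ℝ≥0∞} (hc : 0 < c) : Small (pw s) c K := by
  have hs : 0 < s := by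
    have : (0 : ℝ≥0∞) < s := (zero_le).trans_lt h
    exact_mod_cast this
  exact small_of_measure_zero hK (by exact_mod_cast hs) (hausdorffMeasure_of_dimH_lt h) hc

theorem vanishing_singleton {ψ : ℝ → ℝ≥0∞} {K : Set (E n)} :
    Vanishing {ψ} K ↔ ∀ c : ℝ≥0∞, 0 < c → Small ψ c K := by
  simp [Vanishing]

/-- Typical sets have the least possible Hausdorff dimension. -/
theorem typical_dimH {L : Set (Set (E n))} (hL : ∀ l ∈ L, l ⊆ closedBall (0 : E n) 1) :
    ∀ᶠ K : Cont L in residual (Cont L),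
      dimH (K.1 : Set (E n)) = ⨅ K' : Cont L, dimH (K'.1 : Set (E n)) := by
  have hq : ∀ᶠ K : Cont L in residual (Cont L), ∀ q : ℚ,
      (⨅ K' : Cont L, dimH (K'.1 : Set (E n))) < (Real.toNNReal q : ℝ≥0) →
        dimH (K.1 : Set (E n)) ≤ (Real.toNNReal q : ℝ≥0) := by
    rw [eventually_countable_forall]
    intro q
    by_cases h : (⨅ K' : Cont L, dimH (K'.1 : Set (E n))) < (Real.toNNReal q : ℝ≥0)
    · obtain ⟨K', hK'⟩ := iInf_lt_iff.1 h
      have hq0 : 0 < Real.toNNReal q := by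
        have : (0 : ℝ≥0∞) < (Real.toNNReal q : ℝ≥0) := (zero_le).trans_lt hK'
        exact_mod_cast this
      have hU : ¬ Uniform L {pw (Real.toNNReal q : ℝ≥0)} := by
        rw [(law hL _).1]
        push Not
        refine ⟨K'.1, K'.2, ?_⟩
        rw [vanishing_singleton]
        intro c hc
        exact small_of_dimH_lt K'.1.isCompact hK' hc
      filter_upwards [(law hL _).2 hU] with K hK _
      rw [vanishing_singleton] at hK
      exact dimH_le_of_small hq0 hK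
    · exact Eventually.of_forall fun K h' => absurd h' h
  filter_upwards [hq] with K hK
  refine le_antisymm ?_ (iInf_le _ K)
  by_contra hcon
  push Not at hcon
  obtain ⟨q, hq0, hq1, hq2⟩ := ENNReal.lt_iff_exists_rat_btwn.1 hcon
  exact absurd (hK q hq1) (not_le.2 hq2)

/-- Lower bounds for the Hausdorff dimension are automatically uniform bounds for contents. -/
theorem dimH_uniform {L : Set (Set (E n))} (hL : ∀ l ∈ L, l ⊆ closedBall (0 : E n) 1) (s : ℝ≥0∞) :
    (∀ K ∈ Cont L, s ≤ dimH (K : Set (E n))) ↔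
      ∀ t : ℝ≥0, 0 < t → (t : ℝ≥0∞) < s → Uniform L {pw t} := by
  constructor
  · intro h t ht hts
    rw [(law hL _).1]
    intro K hK hv
    rw [vanishing_singleton] at hv
    exact absurd ((h K hK).trans (dimH_le_of_small ht hv)) (not_le.2 hts)
  · intro h K hK
    by_contra hcon
    push Not at hcon
    obtain ⟨t, ht1, ht2⟩ := ENNReal.lt_iff_exists_nnreal_btwn.1 hcon
    have ht : 0 < t := by
      have : (0 : ℝ≥0∞) < t := (zero_le).trans_lt ht1
      exact_mod_cast this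
    have h1 := ((law hL _).1.1 (h t ht ht2)) K hK
    apply h1
    rw [vanishing_singleton]
    intro c hc
    exact small_of_dimH_lt K.isCompact ht1 hc

end Pool.Agent.X91.TK
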