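import Pool.Agent.X91.TK.Defs

set_option autoImplicit false
open MeasureTheory Set Metric Filter Topology TopologicalSpace
open scoped ENNReal NNReal

namespace Pool.Agent.X91.TK

variable {n : ℕ}

/-- The lattice vector. -/
noncomputable def la (g : Fin n → ℤ) : E n := WithLp.toLp 2 fun j => (g j : ℝ)

theorem la_apply (g : Fin n → ℤ) (j : Fin n) : la g j = (g j : ℝ) := rfl

theorem la_add (g h : Fin n → ℤ) : la (g + h) = la g + la h := by
  ext j
  simp [la_apply]

theorem norm_le_of_coord {x : E n} {h : ℝ} (hh : 0 ≤ h) (hx : ∀ j, |x j| ≤ h) :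
    ‖x‖ ≤ h * (n + 1) := by
  have h1 : ‖x‖ ^ 2 ≤ (h * (n + 1)) ^ 2 := by
    rw [EuclideanSpace.norm_sq_eq]
    calc ∑ j, ‖x j‖ ^ 2 ≤ ∑ _j : Fin n, h ^ 2 := by
          apply Finset.sum_le_sum
          intro j _
          rw [Real.norm_eq_abs]
          have := hx j
          gcongr
      _ = n * h ^ 2 := by simp
      _ ≤ (h * (n + 1)) ^ 2 := by
          have h0 : (0 : ℝ) ≤ n := Nat.cast_nonneg n
          have h2 : 0 ≤ h ^ 2 := sq_nonneg h
          nlinarith [mul_nonneg h0 h2, mul_nonneg (mul_nonneg h0 h0) h2]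
  exact (sq_le_sq₀ (norm_nonneg x) (by positivity)).1 h1

/-- Integer part. -/
noncomputable def fl (x : E n) : Fin n → ℤ := fun j => ⌊x j⌋

theorem norm_sub_fl (x : E n) : ‖x - la (fl x)‖ ≤ n + 1 := by
  have := norm_le_of_coord (x := x - la (fl x)) (h := 1) zero_le_one (fun j => by
    have h1 : (x - la (fl x)) j = x j - ⌊x j⌋ := rfl
    rw [h1, abs_le]
    have h2 := Int.floor_le (x j)
    have h3 := Int.lt_floor_add_one (x j)
    constructor <;> linarith)
  simpa using this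

theorem abs_coord_le (x : E n) (j : Fin n) : |x j| ≤ ‖x‖ := by
  have := PiLp.norm_apply_le x j
  simpa using this

/-- Every set in `Cont L` can be folded into a fixed ball. -/
theorem fold {L : Set (Set (E n))} (hL : ∀ l ∈ L, l ⊆ closedBall (0 : E n) 1) :
    ∃ A : ℕ, ∀ K ∈ Cont L, ∃ K' ∈ Cont L, (K' : Set (E n)) ⊆ closedBall 0 (n + 2) ∧
      ∀ (ψ : ℝ → ℝ≥0∞) (c : ℝ≥0∞), Small ψ c (K : Set (E n)) →
        Small ψ (A * c) (K' : Set (E n)) := by
  classical
  set ρ : ℝ := n + 2 with hρ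
  have hρ2 : 2 ≤ ρ := by rw [hρ]; have : (0 : ℝ) ≤ n := Nat.cast_nonneg n
                         linarith
  set B : ℤ := 4 * (n + 2) with hB
  set H : Finset (Fin n → ℤ) := Finset.Icc (fun _ => -B) (fun _ => B) with hH
  have hH0 : (0 : Fin n → ℤ) ∈ H := by
    rw [hH, Finset.mem_Icc]
    constructor
    · intro j; simp only [Pi.zero_apply]; omega
    · intro j; simp only [Pi.zero_apply]; omega
  have hHpos : 0 < H.card := Finset.card_pos.2 ⟨0, hH0⟩
  refine ⟨H.card, fun K hK => ?_⟩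
  obtain ⟨R, hR⟩ := K.isCompact.isBounded.subset_closedBall (0 : E n)
  have hR0 : 0 ≤ R := by
    obtain ⟨p, hp⟩ := K.nonempty
    have : ‖p‖ ≤ R := by simpa using hR hp
    exact (norm_nonneg p).trans this
  set M : ℤ := ⌈R + ρ⌉ with hM
  have hMR : R + 2 ≤ (M : ℝ) := by
    have := Int.le_ceil (R + ρ)
    rw [hM]; linarith
  set S : Finset (Fin n → ℤ) := Finset.Icc (fun _ => -M) (fun _ => M) with hS
  have hmemS : ∀ x : E n, ‖x‖ ≤ R + 1 → fl x ∈ S := by
    intro x hx
    have h1 : ∀ j, -M ≤ ⌊x j⌋ ∧ ⌊x j⌋ ≤ M := by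
      intro j
      have h2 := abs_coord_le x j
      have h3 : |x j| ≤ R + 1 := h2.trans hx
      rw [abs_le] at h3
      constructor
      · apply Int.le_floor.2
        push_cast
        linarith
      · have h4 : (⌊x j⌋ : ℝ) ≤ M := (Int.floor_le (x j)).trans (by linarith)
        exact_mod_cast h4
    rw [hS, Finset.mem_Icc]
    exact ⟨fun j => (h1 j).1, fun j => (h1 j).2⟩
  set T : Set (E n) := ⋃ g ∈ S, (fun y => y - la g) '' ((K : Set (E n)) ∩ closedBall (la g) ρ)
    with hT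
  have hTc : IsCompact T := by
    apply S.isCompact_biUnion
    intro g _
    exact (K.isCompact.inter_right isClosed_closedBall).image (by fun_prop)
  have hTmem : ∀ (x p : E n), ‖x‖ ≤ R + 1 → p ∈ K → ‖p - la (fl x)‖ ≤ ρ → p - la (fl x) ∈ T := by
    intro x p hx hp hpx
    rw [hT]
    refine mem_iUnion₂.2 ⟨fl x, hmemS x hx, p, ⟨hp, ?_⟩, rfl⟩
    rw [mem_closedBall, dist_eq_norm]
    exact hpx
  have hTne : T.Nonempty := by
    obtain ⟨p, hp⟩ := K.nonempty
    have h1 : ‖p‖ ≤ R := by simpa using hR hp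
    exact ⟨_, hTmem p p (by linarith) hp ((norm_sub_fl p).trans (by rw [hρ]; linarith))⟩
  set K' : NonemptyCompacts (E n) := ⟨⟨T, hTc⟩, hTne⟩ with hK'
  have hK'T : (K' : Set (E n)) = T := rfl
  refine ⟨K', ?_, ?_, ?_⟩
  · intro l hl
    rcases l.eq_empty_or_nonempty with rfl | ⟨y₀, hy₀⟩
    · exact ⟨0, fun y hy => absurd hy (notMem_empty y)⟩
    obtain ⟨x, hx⟩ := hK l hl
    have hx1 : ‖x‖ ≤ R + 1 := by
      have h1 : ‖x + y₀‖ ≤ R := by simpa using hR (hx y₀ hy₀)
      have h2 : ‖y₀‖ ≤ 1 := by simpa using hL l hl hy₀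
      calc ‖x‖ = ‖(x + y₀) - y₀‖ := by congr 1; abel
        _ ≤ ‖x + y₀‖ + ‖y₀‖ := norm_sub_le _ _
        _ ≤ R + 1 := by linarith
    refine ⟨x - la (fl x), fun y hy => ?_⟩
    have h2 : ‖y‖ ≤ 1 := by simpa using hL l hl hy
    have h3 : x - la (fl x) + y = (x + y) - la (fl x) := by abel
    rw [h3, ← SetLike.mem_coe, hK'T]
    refine hTmem x (x + y) hx1 (hx y hy) ?_
    calc ‖x + y - la (fl x)‖ = ‖(x - la (fl x)) + y‖ := by congr 1; abel
      _ ≤ ‖x - la (fl x)‖ + ‖y‖ := norm_add_le _ _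
      _ ≤ (n + 1) + 1 := add_le_add (norm_sub_fl x) h2
      _ = ρ := by rw [hρ]; ring
  · rw [hK'T, hT]
    refine iUnion₂_subset fun g _ => ?_
    rintro _ ⟨p, ⟨_, hp2⟩, rfl⟩
    rw [mem_closedBall_zero_iff]
    rwa [mem_closedBall, dist_eq_norm] at hp2
  · rintro ψ c ⟨N, x, r, hcov, hsum⟩
    rw [hK'T]
    have hA1 : (1 : ℝ≥0∞) ≤ (H.card : ℝ≥0∞) := by
      exact_mod_cast hHpos
    by_cases hbig : ∃ i, ρ < r i
    · obtain ⟨i, hi⟩ := hbig
      refine ⟨1, fun _ => 0, fun _ => r i, ?_, ?_⟩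
      · intro y hy
        refine mem_iUnion.2 ⟨0, ?_⟩
        rw [hT] at hy
        obtain ⟨g, _, p, ⟨_, hp2⟩, rfl⟩ := mem_iUnion₂.1 hy
        rw [mem_ball_zero_iff]
        rw [mem_closedBall, dist_eq_norm] at hp2
        exact hp2.trans_lt hi
      · simp only [Finset.univ_unique, Finset.sum_const, Finset.card_singleton, one_smul]
        calc ψ (r i) ≤ ∑ i, ψ (r i) :=
              Finset.single_le_sum (f := fun i => ψ (r i)) (fun _ _ => zero_le)
                (Finset.mem_univ i)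
          _ < c := hsum
          _ = 1 * c := (one_mul c).symm
          _ ≤ H.card * c := by gcongr
    · push Not at hbig
      refine small_of_fintype (ι := Fin N × H) (fun q => x q.1 - la (fl (x q.1) + q.2.1))
        (fun q => r q.1) ?_ ?_
      · intro y hy
        rw [hT] at hy
        obtain ⟨g, _, p, ⟨hp1, hp2⟩, rfl⟩ := mem_iUnion₂.1 hy
        obtain ⟨i, hi⟩ := mem_iUnion.1 (hcov hp1)
        have hgH : g - fl (x i) ∈ H := by
          rw [mem_closedBall, dist_eq_norm] at hp2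
          rw [mem_ball, dist_eq_norm] at hi
          have h1 : ∀ j, |(g j : ℝ) - ⌊x i j⌋| ≤ B := by
            intro j
            have a1 := (abs_coord_le (p - la g) j).trans hp2
            have a2 := (abs_coord_le (p - x i) j).trans hi.le
            have e1 : (p - la g) j = p j - g j := rfl
            have e2 : (p - x i) j = p j - x i j := rfl
            rw [e1, abs_le] at a1
            rw [e2, abs_le] at a2
            have a3 := hbig i
            have a4 := Int.floor_le (x i j)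
            have a5 := Int.lt_floor_add_one (x i j)
            have hB' : (B : ℝ) = 4 * ρ := by rw [hB, hρ]; push_cast; ring
            rw [hB', abs_le]
            constructor <;> linarith [a1.1, a1.2, a2.1, a2.2]
          rw [hH, Finset.mem_Icc]
          constructor
          · intro j
            have := (abs_le.1 (h1 j)).1
            have h2 : -B ≤ g j - ⌊x i j⌋ := by exact_mod_cast this
            exact h2
          · intro j
            have := (abs_le.1 (h1 j)).2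
            have h2 : g j - ⌊x i j⌋ ≤ B := by exact_mod_cast this
            exact h2
        refine mem_iUnion.2 ⟨(i, ⟨g - fl (x i), hgH⟩), ?_⟩
        have e3 : fl (x i) + (g - fl (x i)) = g := by abel
        simp only [e3]
        rw [mem_ball, dist_eq_norm] at hi ⊢
        have e4 : p - la g - (x i - la g) = p - x i := by abel
        rw [e4]
        exact hi
      · rw [Fintype.sum_prod_type]
        simp only [Finset.sum_const, Finset.card_univ, Fintype.card_coe, nsmul_eq_mul]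
        rw [← Finset.mul_sum]
        exact (ENNReal.mul_lt_mul_iff_right (by positivity) (ENNReal.natCast_ne_top _)).2 hsum

/-- Small sets are dense as soon as one exists in the fixed ball. -/
theorem near {L : Set (Set (E n))} (hL : ∀ l ∈ L, l ⊆ closedBall (0 : E n) 1)
    (K₀ : NonemptyCompacts (E n)) (hK₀ : K₀ ∈ Cont L) {η : ℝ} (hη : 0 < η) :
    ∃ A : ℕ, ∀ K₁ ∈ Cont L, (K₁ : Set (E n)) ⊆ closedBall 0 (n + 2) → ∃ K ∈ Cont L,
      dist K K₀ ≤ η ∧ ∀ (ψ : ℝ → ℝ≥0∞) (c : ℝ≥0∞), Small ψ c (K₁ : Set (E n)) →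
        Small ψ (A * c) (K : Set (E n)) := by
  classical
  obtain ⟨R, hR⟩ := K₀.isCompact.isBounded.subset_closedBall (0 : E n)
  obtain ⟨G, -, hGf, hG⟩ :=
    (isCompact_closedBall (0 : E n) (R + 1 + (n + 3))).finite_cover_balls hη
  obtain ⟨F, hFK, hFf, hF⟩ := K₀.isCompact.finite_cover_balls hη
  lift G to Finset (E n) using hGf
  lift F to Finset (E n) using hFf
  have hFne : F.Nonempty := by
    obtain ⟨p, hp⟩ := K₀.nonempty
    obtain ⟨f, hf, _⟩ := mem_iUnion₂.1 (hF hp)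
    exact ⟨f, hf⟩
  refine ⟨G.card + F.card, fun K₁ hK₁ hK₁b => ?_⟩
  set U : Set (E n) := ⋃ g ∈ G, (fun y => y + g) '' (K₁ : Set (E n)) with hU
  set T : Set (E n) := (U ∩ cthickening η (K₀ : Set (E n))) ∪ (F : Set (E n)) with hT
  have hUc : IsCompact U := by
    apply G.isCompact_biUnion
    intro g _
    exact K₁.isCompact.image (by fun_prop)
  have hTc : IsCompact T := (hUc.inter_right isClosed_cthickening).union F.finite_toSet.isCompact
  have hTne : T.Nonempty := by
    obtain ⟨f, hf⟩ := hFne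
    exact ⟨f, Or.inr hf⟩
  set K : NonemptyCompacts (E n) := ⟨⟨T, hTc⟩, hTne⟩ with hK
  have hKT : (K : Set (E n)) = T := rfl
  refine ⟨K, ?_, ?_, ?_⟩
  · intro l hl
    rcases l.eq_empty_or_nonempty with rfl | ⟨y₀, hy₀⟩
    · exact ⟨0, fun y hy => absurd hy (notMem_empty y)⟩
    obtain ⟨x₀, hx₀⟩ := hK₀ l hl
    obtain ⟨x₁, hx₁⟩ := hK₁ l hl
    have h2 : ‖y₀‖ ≤ 1 := by simpa using hL l hl hy₀
    have hb0 : ‖x₀‖ ≤ R + 1 := by
      have h1 : ‖x₀ + y₀‖ ≤ R := by simpa using hR (hx₀ y₀ hy₀)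
      calc ‖x₀‖ = ‖(x₀ + y₀) - y₀‖ := by congr 1; abel
        _ ≤ ‖x₀ + y₀‖ + ‖y₀‖ := norm_sub_le _ _
        _ ≤ R + 1 := by linarith
    have hb1 : ‖x₁‖ ≤ n + 3 := by
      have h1 : ‖x₁ + y₀‖ ≤ n + 2 := by simpa using hK₁b (hx₁ y₀ hy₀)
      calc ‖x₁‖ = ‖(x₁ + y₀) - y₀‖ := by congr 1; abel
        _ ≤ ‖x₁ + y₀‖ + ‖y₀‖ := norm_sub_le _ _
        _ ≤ n + 3 := by linarith
    have hmem : x₀ - x₁ ∈ closedBall (0 : E n) (R + 1 + (n + 3)) := by
      rw [mem_closedBall_zero_iff]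
      exact (norm_sub_le _ _).trans (by linarith)
    obtain ⟨g, hg, hgx⟩ := mem_iUnion₂.1 (hG hmem)
    rw [mem_ball, dist_eq_norm] at hgx
    refine ⟨x₁ + g, fun y hy => ?_⟩
    rw [← SetLike.mem_coe, hKT]
    refine Or.inl ⟨?_, ?_⟩
    · refine mem_iUnion₂.2 ⟨g, hg, x₁ + y, hx₁ y hy, ?_⟩
      simp only
      abel
    · refine mem_cthickening_of_dist_le _ (x₀ + y) η _ (hx₀ y hy) ?_
      rw [dist_eq_norm]
      have e1 : x₁ + g + y - (x₀ + y) = -(x₀ - x₁ - g) := by abel
      rw [e1, norm_neg]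
      exact hgx.le
  · rw [NonemptyCompacts.dist_eq, hKT]
    apply hausdorffDist_le_of_mem_dist hη.le
    · rintro y (hy | hy)
      · have h1 := hy.2
        rw [K₀.isCompact.cthickening_eq_biUnion_closedBall hη.le] at h1
        obtain ⟨z, hz, hyz⟩ := mem_iUnion₂.1 h1
        exact ⟨z, hz, hyz⟩
      · exact ⟨y, hFK hy, by simpa using hη.le⟩
    · intro y hy
      obtain ⟨f, hf, hyf⟩ := mem_iUnion₂.1 (hF hy)
      exact ⟨f, Or.inr hf, (mem_ball.1 hyf).le⟩
  · rintro ψ c ⟨N, x, r, hcov, hsum⟩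
    rw [hKT]
    obtain ⟨i₀, hi₀⟩ : ∃ i, 0 < r i := by
      obtain ⟨p, hp⟩ := K₁.nonempty
      obtain ⟨i, hi⟩ := mem_iUnion.1 (hcov hp)
      exact ⟨i, pos_of_mem_ball hi⟩
    refine small_of_fintype (ι := Fin N × (G ⊕ F))
      (fun q => Sum.elim (fun g : G => x q.1 + g.1) (fun f : F => f.1) q.2) (fun q => r q.1) ?_ ?_
    · rintro y (hy | hy)
      · obtain ⟨g, hg, p, hp, hpy⟩ := mem_iUnion₂.1 hy.1
        obtain ⟨i, hi⟩ := mem_iUnion.1 (hcov hp)
        refine mem_iUnion.2 ⟨(i, Sum.inl ⟨g, hg⟩), ?_⟩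
        simp only at hpy
        rw [← hpy]
        simp only [Sum.elim_inl]
        rw [mem_ball, dist_eq_norm] at hi ⊢
        have e1 : p + g - (x i + g) = p - x i := by abel
        rw [e1]
        exact hi
      · refine mem_iUnion.2 ⟨(i₀, Sum.inr ⟨y, hy⟩), ?_⟩
        simp only [Sum.elim_inr]
        exact mem_ball_self hi₀
    · rw [Fintype.sum_prod_type]
      simp only [Finset.sum_const, Finset.card_univ, Fintype.card_sum, Fintype.card_coe,
        nsmul_eq_mul]
      rw [← Finset.mul_sum]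
      have hpos : 0 < G.card + F.card := by
        have := Finset.card_pos.2 hFne
        omega
      exact (ENNReal.mul_lt_mul_iff_right (by exact_mod_cast hpos.ne')
        (ENNReal.natCast_ne_top _)).2 hsum

end Pool.Agent.X91.TK
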