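import Pool.Agent.X91.TK.Fold

set_option autoImplicit false
open MeasureTheory Set Metric Filter Topology TopologicalSpace
open scoped ENNReal NNReal

namespace Pool.Agent.X91.TK

variable {n : ℕ}

/-- The weights in `W` are bounded below on all sets in `Cont L`. -/
def Uniform (L : Set (Set (E n))) (W : Set (ℝ → ℝ≥0∞)) : Prop :=
  ∃ c : ℝ≥0∞, 0 < c ∧ ∀ K ∈ Cont L, ∀ ψ ∈ W, ¬ Small ψ c (K : Set (E n))

/-- The set `K` has covers of arbitrarily small weight. -/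
def Vanishing (W : Set (ℝ → ℝ≥0∞)) (K : Set (E n)) : Prop :=
  ∀ c : ℝ≥0∞, 0 < c → ∃ ψ ∈ W, Small ψ c K

theorem zero_one {L : Set (Set (E n))} (hL : ∀ l ∈ L, l ⊆ closedBall (0 : E n) 1)
    (W : Set (ℝ → ℝ≥0∞)) (hW : ¬ Uniform L W) :
    ∀ᶠ K : Cont L in residual (Cont L), Vanishing W (K.1 : Set (E n)) := by
  obtain ⟨A, hA⟩ := fold hL
  have hopen : ∀ m : ℕ, IsOpen {K : Cont L | ∃ ψ ∈ W,
      Small ψ ((m : ℝ≥0∞) + 1)⁻¹ (K.1 : Set (E n))} := by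
    intro m
    have : {K : Cont L | ∃ ψ ∈ W, Small ψ ((m : ℝ≥0∞) + 1)⁻¹ (K.1 : Set (E n))} =
        ⋃ ψ ∈ W, (Subtype.val ⁻¹'
          {K : NonemptyCompacts (E n) | Small ψ ((m : ℝ≥0∞) + 1)⁻¹ (K : Set (E n))}) := by
      ext K
      simp
    rw [this]
    exact isOpen_biUnion fun ψ _ => (isOpen_small ψ _).preimage continuous_subtype_val
  have hdense : ∀ m : ℕ, Dense {K : Cont L | ∃ ψ ∈ W,
      Small ψ ((m : ℝ≥0∞) + 1)⁻¹ (K.1 : Set (E n))} := by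
    intro m
    rw [Metric.dense_iff]
    rintro ⟨K₀, hK₀⟩ ε hε
    obtain ⟨A', hA'⟩ := near hL K₀ hK₀ (half_pos hε)
    unfold Uniform at hW
    push Not at hW
    have hne : ((A' : ℝ≥0∞) * A * (m + 1) + 1) ≠ ⊤ := by
      apply ENNReal.add_ne_top.2 ⟨?_, ENNReal.one_ne_top⟩
      apply ENNReal.mul_ne_top (ENNReal.mul_ne_top (ENNReal.natCast_ne_top _)
        (ENNReal.natCast_ne_top _))
      exact ENNReal.add_ne_top.2 ⟨ENNReal.natCast_ne_top _, ENNReal.one_ne_top⟩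
    obtain ⟨K₁, hK₁, ψ, hψ, hs⟩ := hW ((A' : ℝ≥0∞) * A * (m + 1) + 1)⁻¹
      (ENNReal.inv_pos.2 hne)
    obtain ⟨K₂, hK₂, hK₂b, hK₂s⟩ := hA K₁ hK₁
    obtain ⟨K, hK, hKd, hKs⟩ := hA' K₂ hK₂ hK₂b
    have h1 := hKs ψ _ (hK₂s ψ _ hs)
    refine ⟨⟨K, hK⟩, ?_, ψ, hψ, h1.mono (le_refl _) ?_⟩
    · rw [mem_ball, Subtype.dist_eq]
      exact hKd.trans_lt (half_lt_self hε)
    · rw [← mul_assoc, ← div_eq_mul_inv, ← one_div]
      rw [ENNReal.div_le_iff (by positivity) hne, one_div]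
      have hm0 : (m : ℝ≥0∞) + 1 ≠ 0 := by positivity
      have hmt : (m : ℝ≥0∞) + 1 ≠ ⊤ :=
        ENNReal.add_ne_top.2 ⟨ENNReal.natCast_ne_top _, ENNReal.one_ne_top⟩
      calc (A' : ℝ≥0∞) * A = ((m : ℝ≥0∞) + 1)⁻¹ * (A' * A * (m + 1)) := by
            rw [mul_comm ((m : ℝ≥0∞) + 1)⁻¹, mul_assoc, ENNReal.mul_inv_cancel hm0 hmt, mul_one]
        _ ≤ ((m : ℝ≥0∞) + 1)⁻¹ * (A' * A * (m + 1) + 1) := by
            gcongr
            exact le_self_add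
  have hall : ∀ᶠ K : Cont L in residual (Cont L), ∀ m : ℕ, ∃ ψ ∈ W,
      Small ψ ((m : ℝ≥0∞) + 1)⁻¹ (K.1 : Set (E n)) := by
    rw [eventually_countable_forall]
    intro m
    exact residual_of_dense_open (hopen m) (hdense m)
  filter_upwards [hall] with K hK c hc
  obtain ⟨m, hm⟩ := ENNReal.exists_inv_nat_lt hc.ne'
  obtain ⟨ψ, hψ, hs⟩ := hK m
  refine ⟨ψ, hψ, hs.mono (le_refl _) ?_⟩
  refine le_trans ?_ hm.le
  gcongr
  exact le_self_add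

instance baire (L : Set (Set (E n))) : BaireSpace (Cont L) := by
  have : CompleteSpace (Cont L) := (isClosed_cont L).completeSpace_coe
  infer_instance

/-- **Law.** -/
theorem law {L : Set (Set (E n))} (hL : ∀ l ∈ L, l ⊆ closedBall (0 : E n) 1)
    (W : Set (ℝ → ℝ≥0∞)) :
    (Uniform L W ↔ ∀ K ∈ Cont L, ¬ Vanishing W (K : Set (E n))) ∧
    (¬ Uniform L W → ∀ᶠ K : Cont L in residual (Cont L), Vanishing W (K.1 : Set (E n))) := by
  refine ⟨⟨?_, ?_⟩, zero_one hL W⟩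
  · rintro ⟨c, hc, h⟩ K hK hv
    obtain ⟨ψ, hψ, hs⟩ := hv c hc
    exact h K hK ψ hψ hs
  · intro h
    by_contra hU
    have hz := zero_one hL W hU
    have hne : Nonempty (Cont L) := by
      unfold Uniform at hU
      push Not at hU
      obtain ⟨K, hK, _⟩ := hU 1 one_pos
      exact ⟨⟨K, hK⟩⟩
    obtain ⟨K, hK⟩ := (dense_of_mem_residual hz).nonempty
    exact h K.1 K.2 hK

end Pool.Agent.X91.TK
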