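import Pool.Agent.X91.TK.Mink

set_option autoImplicit false
open MeasureTheory Set Metric Filter Topology TopologicalSpace
open scoped ENNReal NNReal

namespace Pool.Agent.X91.TK

variable {n : ℕ}

/-- The lower Minkowski dimension `n - limsup_{δ → 0+} log |N_δ K| / log δ`. -/
noncomputable def lowerMinkowski {n : ℕ} (K : Set (E n)) : ℝ :=
  n - limsup (fun δ : ℝ => Real.log (volume (thickening δ K)).toReal / Real.log δ) (𝓝[>] 0)

/-- The power. -/
noncomputable def pp (n : ℕ) (s : ℝ) : ℝ → ℝ := fun δ => δ ^ ((n : ℝ) - s)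

theorem pp_pos (s : ℝ) : ∀ δ, 0 < δ → δ < 1 → 0 < pp n s δ := fun δ hδ _ => by
  rw [pp]; positivity

theorem fin_vol {K : Set (E n)} (hK : IsCompact K) (δ : ℝ) : volume (thickening δ K) ≠ ⊤ :=
  (hK.isBounded.thickening (δ := δ)).measure_lt_top.ne

/-- volume of the unit ball -/
noncomputable def vb (n : ℕ) : ℝ := (volume (ball (0 : E n) 1)).toReal

theorem vb_pos : 0 < vb n := ENNReal.toReal_pos (vol_pos one_pos).ne' vol_ne_top

theorem vol_ge {K : Set (E n)} (hK : IsCompact K) (hne : K.Nonempty) {δ : ℝ} (hδ : 0 < δ) :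
    vb n * δ ^ n ≤ (volume (thickening δ K)).toReal := by
  obtain ⟨p, hp⟩ := hne
  have h1 : ball p δ ⊆ thickening δ K := by
    intro y hy
    exact mem_thickening_iff.2 ⟨p, hp, hy⟩
  have h2 := ENNReal.toReal_mono (fin_vol hK δ) (measure_mono h1)
  rw [Measure.addHaar_ball_center] at h2
  have h3 : volume (ball (0 : E n) δ) = ENNReal.ofReal (δ ^ n) * volume (ball (0 : E n) 1) := by
    rw [← vol_ball_mul hδ, mul_one]
  rw [h3, ENNReal.toReal_mul, ENNReal.toReal_ofReal (by positivity)] at h2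
  rw [vb, mul_comm]
  exact h2

/-- the quotient -/
noncomputable def qu (K : Set (E n)) (δ : ℝ) : ℝ :=
  Real.log (volume (thickening δ K)).toReal / Real.log δ

theorem small_scales : ∀ᶠ δ : ℝ in 𝓝[>] (0 : ℝ), 0 < δ ∧ δ < 1 := Ioo_mem_nhdsGT one_pos

theorem qu_bdd_above {K : Set (E n)} (hK : IsCompact K) (hne : K.Nonempty) {ε : ℝ} (hε : 0 < ε) :
    ∀ᶠ δ : ℝ in 𝓝[>] (0 : ℝ), qu K δ ≤ n + ε := by
  have h1 : ∀ᶠ δ : ℝ in 𝓝[>] (0 : ℝ), Real.log δ < -(|Real.log (vb n)| / ε + 1) :=
    Real.tendsto_log_nhdsGT_zero.eventually (eventually_lt_atBot _)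
  filter_upwards [h1, small_scales] with δ h1 h2
  have habs : 0 ≤ |Real.log (vb n)| / ε := by positivity
  have hneg : Real.log δ < 0 := by linarith
  rw [qu, div_le_iff_of_neg hneg]
  have hv := vol_ge hK hne h2.1
  have hpos : 0 < vb n * δ ^ n := by have := vb_pos (n := n); have := h2.1; positivity
  have h3 := Real.log_le_log hpos hv
  rw [Real.log_mul vb_pos.ne' (by have := h2.1; positivity), Real.log_pow] at h3
  have h4 : |Real.log (vb n)| < -(ε * Real.log δ) := by
    have h5 : |Real.log (vb n)| / ε < - Real.log δ := by linarith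
    rw [div_lt_iff₀ hε] at h5
    linarith
  have h5 := neg_abs_le (Real.log (vb n))
  nlinarith

theorem qu_bdd_below {K : Set (E n)} (hK : IsCompact K) (hne : K.Nonempty) :
    ∀ᶠ δ : ℝ in 𝓝[>] (0 : ℝ), -1 ≤ qu K δ := by
  set M : ℝ := (volume (thickening 1 K)).toReal with hM
  have h1 : ∀ᶠ δ : ℝ in 𝓝[>] (0 : ℝ), Real.log δ < -(|Real.log M| + 1) :=
    Real.tendsto_log_nhdsGT_zero.eventually (eventually_lt_atBot _)
  filter_upwards [h1, small_scales] with δ h1 h2
  have hneg : Real.log δ < 0 := by have := abs_nonneg (Real.log M); linarith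
  rw [qu, le_div_iff_of_neg hneg]
  have h3 : (volume (thickening δ K)).toReal ≤ M := by
    rw [hM]
    exact ENNReal.toReal_mono (fin_vol hK 1) (measure_mono (thickening_mono h2.2.le K))
  have h4 : 0 < (volume (thickening δ K)).toReal := by
    refine lt_of_lt_of_le ?_ (vol_ge hK hne h2.1)
    have := vb_pos (n := n); have := h2.1; positivity
  have h5 := Real.log_le_log h4 h3
  have := le_abs_self (Real.log M)
  linarith

theorem lower_le {K : Set (E n)} : lowerMinkowski K = n - limsup (qu K) (𝓝[>] 0) := rfl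

theorem thin_of_lt {K : Set (E n)} (hK : IsCompact K) (hne : K.Nonempty) {s : ℝ}
    (h : lowerMinkowski K < s) : Thin (pp n s) K := by
  intro c hc
  rw [lower_le] at h
  obtain ⟨b, hb1, hb2⟩ := exists_between (show (n : ℝ) - s < limsup (qu K) (𝓝[>] 0) by linarith)
  have hcob : IsCoboundedUnder (· ≤ ·) (𝓝[>] (0 : ℝ)) (qu K) :=
    IsCoboundedUnder.of_frequently_ge (a := -1) (qu_bdd_below hK hne).frequently
  have hfr := frequently_lt_of_lt_limsup hcob hb2
  have hsm : ∀ᶠ δ : ℝ in 𝓝[>] (0 : ℝ), δ ^ (b - (n - s)) < c := by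
    have h1 : Tendsto (fun δ : ℝ => δ ^ (b - (n - s))) (𝓝[>] 0) (𝓝 0) := by
      have h2 := (Real.continuousAt_rpow_const 0 (b - (n - s)) (Or.inr (by linarith))).tendsto
      rw [Real.zero_rpow (by linarith)] at h2
      exact h2.mono_left nhdsWithin_le_nhds
    exact h1.eventually (gt_mem_nhds hc)
  obtain ⟨δ, hδ1, hδ2, hδ3⟩ := (hfr.and_eventually (hsm.and small_scales)).exists
  refine ⟨δ, hδ3.1, hδ3.2, ?_⟩
  have hneg : Real.log δ < 0 := Real.log_neg hδ3.1 hδ3.2
  rw [qu, lt_div_iff_of_neg hneg] at hδ1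
  have hpos : 0 < (volume (thickening δ K)).toReal := by
    refine lt_of_lt_of_le ?_ (vol_ge hK hne hδ3.1)
    have := vb_pos (n := n); have := hδ3.1; positivity
  rw [← ENNReal.ofReal_toReal (fin_vol hK δ)]
  apply (ENNReal.ofReal_lt_ofReal_iff (mul_pos hc (pp_pos s δ hδ3.1 hδ3.2))).2
  calc (volume (thickening δ K)).toReal < δ ^ b := by
        rw [Real.lt_rpow_iff_log_lt hpos hδ3.1]
        exact hδ1
    _ = δ ^ (b - (n - s)) * δ ^ ((n : ℝ) - s) := by
        rw [← Real.rpow_add hδ3.1]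
        congr 1
        ring
    _ < c * pp n s δ := by
        rw [pp]
        exact mul_lt_mul_of_pos_right hδ2 (Real.rpow_pos_of_pos hδ3.1 _)

theorem le_of_thin {K : Set (E n)} (hK : IsCompact K) (hne : K.Nonempty) {s : ℝ}
    (h : Thin (pp n s) K) : lowerMinkowski K ≤ s := by
  by_contra hcon
  push Not at hcon
  rw [lower_le] at hcon
  obtain ⟨b, hb1, hb2⟩ := exists_between (show limsup (qu K) (𝓝[>] 0) < (n : ℝ) - s by linarith)
  have hbdd : IsBoundedUnder (· ≤ ·) (𝓝[>] (0 : ℝ)) (qu K) :=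
    ⟨n + 1, (qu_bdd_above hK hne one_pos)⟩
  have hev := eventually_lt_of_limsup_lt hb1 hbdd
  obtain ⟨δ₀, hδ₀, hδ₀'⟩ := mem_nhdsGT_iff_exists_Ioo_subset.1 hev
  have hδ₀ : 0 < δ₀ := hδ₀
  set δ₁ : ℝ := min δ₀ 1 / 2 with hδ₁
  have hmin : 0 < min δ₀ 1 := lt_min hδ₀ one_pos
  have hδ₁0 : 0 < δ₁ := by rw [hδ₁]; positivity
  have hδ₁1 : δ₁ < δ₀ := by
    rw [hδ₁]
    have := min_le_left δ₀ 1
    linarith
  set m : ℝ := (volume (thickening δ₁ K)).toReal with hm
  have hm0 : 0 < m := by
    refine lt_of_lt_of_le ?_ (vol_ge hK hne hδ₁0)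
    have := vb_pos (n := n); positivity
  -- upper bound for `δ^(n-s)` on `[δ₁, 1]`
  obtain ⟨M, hM0, hM⟩ : ∃ M : ℝ, 0 < M ∧ ∀ δ ∈ Icc δ₁ 1, pp n s δ ≤ M := by
    have hc : ContinuousOn (pp n s) (Icc δ₁ 1) := by
      intro δ hδ
      apply ContinuousAt.continuousWithinAt
      exact Real.continuousAt_rpow_const _ _ (Or.inl (by have := hδ.1; linarith))
    obtain ⟨M, hM⟩ := (isCompact_Icc.image_of_continuousOn hc).isBounded.bddAbove
    refine ⟨max M 1, by positivity, fun δ hδ => (hM ⟨δ, hδ, rfl⟩).trans (le_max_left _ _)⟩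
  obtain ⟨δ, hδ, hδ1, hv⟩ := h (min 1 (m / M)) (lt_min one_pos (div_pos hm0 hM0))
  have hc0 : 0 < min 1 (m / M) := lt_min one_pos (div_pos hm0 hM0)
  have hpp := pp_pos (n := n) s δ hδ hδ1
  have hv' : (volume (thickening δ K)).toReal < min 1 (m / M) * pp n s δ := by
    rw [← ENNReal.ofReal_toReal (fin_vol hK δ)] at hv
    exact (ENNReal.ofReal_lt_ofReal_iff (mul_pos hc0 hpp)).1 hv
  rcases lt_or_ge δ δ₁ with hlt | hge
  · have h1 : qu K δ < b := hδ₀' ⟨hδ, by linarith⟩
    have hneg : Real.log δ < 0 := Real.log_neg hδ hδ1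
    rw [qu, div_lt_iff_of_neg hneg] at h1
    have hpos : 0 < (volume (thickening δ K)).toReal := by
      refine lt_of_lt_of_le ?_ (vol_ge hK hne hδ)
      have := vb_pos (n := n); positivity
    have h2 : δ ^ b < (volume (thickening δ K)).toReal := by
      rw [Real.rpow_lt_iff_lt_log hδ hpos]
      exact h1
    have h3 : pp n s δ ≤ δ ^ b := by
      rw [pp]
      exact Real.rpow_le_rpow_of_exponent_ge hδ hδ1.le hb2.le
    have h4 : min 1 (m / M) * pp n s δ ≤ pp n s δ := by
      calc min 1 (m / M) * pp n s δ ≤ 1 * pp n s δ := by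
            gcongr
            exact min_le_left _ _
        _ = pp n s δ := one_mul _
    linarith
  · have h1 : m ≤ (volume (thickening δ K)).toReal := by
      rw [hm]
      exact ENNReal.toReal_mono (fin_vol hK δ) (measure_mono (thickening_mono hge K))
    have h2 : min 1 (m / M) * pp n s δ ≤ m := by
      calc min 1 (m / M) * pp n s δ ≤ (m / M) * M := by
            apply mul_le_mul (min_le_right _ _) (hM δ ⟨hge, hδ1.le⟩) hpp.le (by positivity)
        _ = m := by field_simp
    linarith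

theorem lowerMinkowski_nonneg {K : Set (E n)} (hK : IsCompact K) (hne : K.Nonempty) :
    0 ≤ lowerMinkowski K := by
  by_contra hcon
  push Not at hcon
  obtain ⟨δ, hδ, hδ1, hv⟩ := thin_of_lt hK hne hcon (vb n) vb_pos
  have h1 := vol_ge hK hne hδ
  rw [← ENNReal.ofReal_toReal (fin_vol hK δ),
    ENNReal.ofReal_lt_ofReal_iff (mul_pos vb_pos (pp_pos 0 δ hδ hδ1)), pp, sub_zero,
    Real.rpow_natCast] at hv
  linarith

theorem lowerMinkowski_le {K : Set (E n)} (hK : IsCompact K) (hne : K.Nonempty) :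
    lowerMinkowski K ≤ n := by
  by_contra hcon
  push Not at hcon
  rw [lower_le] at hcon
  have h1 : limsup (qu K) (𝓝[>] 0) < 0 := by linarith
  have hbdd : IsBoundedUnder (· ≤ ·) (𝓝[>] (0 : ℝ)) (qu K) :=
    ⟨n + 1, (qu_bdd_above hK hne one_pos)⟩
  obtain ⟨b, hb1, hb2⟩ := exists_between h1
  have hev := eventually_lt_of_limsup_lt hb1 hbdd
  set M : ℝ := (volume (thickening 1 K)).toReal with hM
  have h2 : ∀ᶠ δ : ℝ in 𝓝[>] (0 : ℝ), Real.log δ < -(|Real.log M| / (-b) + 1) :=
    Real.tendsto_log_nhdsGT_zero.eventually (eventually_lt_atBot _)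
  obtain ⟨δ, h3, h4, h5⟩ := (hev.and (h2.and small_scales)).exists
  have hneg : Real.log δ < 0 := Real.log_neg h5.1 h5.2
  rw [qu, div_lt_iff_of_neg hneg] at h3
  have h6 : (volume (thickening δ K)).toReal ≤ M := by
    rw [hM]
    exact ENNReal.toReal_mono (fin_vol hK 1) (measure_mono (thickening_mono h5.2.le K))
  have hpos : 0 < (volume (thickening δ K)).toReal := by
    refine lt_of_lt_of_le ?_ (vol_ge hK hne h5.1)
    have := vb_pos (n := n); have := h5.1; positivity
  have h7 := Real.log_le_log hpos h6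
  have h8 : |Real.log M| < b * Real.log δ := by
    have h9 : |Real.log M| / (-b) < -Real.log δ := by linarith
    rw [div_lt_iff₀ (by linarith)] at h9
    linarith
  have := le_abs_self (Real.log M)
  linarith

/-- Typical sets have the least possible lower Minkowski dimension. -/
theorem typical_lowerMinkowski {L : Set (Set (E n))} (hL : ∀ l ∈ L, l ⊆ closedBall (0 : E n) 1) :
    ∀ᶠ K : Cont L in residual (Cont L),
      lowerMinkowski (K.1 : Set (E n)) = ⨅ K' : Cont L, lowerMinkowski (K'.1 : Set (E n)) := by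
  have hbdd : BddBelow (range fun K' : Cont L => lowerMinkowski (K'.1 : Set (E n))) := by
    refine ⟨0, ?_⟩
    rintro _ ⟨K', rfl⟩
    exact lowerMinkowski_nonneg K'.1.isCompact K'.1.nonempty
  have hq : ∀ᶠ K : Cont L in residual (Cont L), ∀ q : ℚ,
      (⨅ K' : Cont L, lowerMinkowski (K'.1 : Set (E n))) < q →
        lowerMinkowski (K.1 : Set (E n)) ≤ q := by
    rw [eventually_countable_forall]
    intro q
    by_cases h : (⨅ K' : Cont L, lowerMinkowski (K'.1 : Set (E n))) < q
    · rcases isEmpty_or_nonempty (Cont L) with he | hne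
      · exact Eventually.of_forall fun K => he.elim K
      obtain ⟨K', hK'⟩ := exists_lt_of_ciInf_lt h
      have hU : ¬ NbhdBound L (pp n q) := by
        rw [(nbhd_law hL (pp_pos _)).1]
        push Not
        exact ⟨K'.1, K'.2, thin_of_lt K'.1.isCompact K'.1.nonempty hK'⟩
      filter_upwards [(nbhd_law hL (pp_pos _)).2 hU] with K hK _
      exact le_of_thin K.1.isCompact K.1.nonempty hK
    · exact Eventually.of_forall fun K h' => absurd h' h
  filter_upwards [hq] with K hK
  refine le_antisymm ?_ (ciInf_le hbdd K)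
  by_contra hcon
  push Not at hcon
  obtain ⟨q, hq1, hq2⟩ := exists_rat_btwn hcon
  exact absurd (hK q hq1) (not_le.2 hq2)

/-- Lower bounds for the lower Minkowski dimension are automatically uniform. -/
theorem lowerMinkowski_uniform {L : Set (Set (E n))} (hL : ∀ l ∈ L, l ⊆ closedBall (0 : E n) 1)
    (s : ℝ) :
    (∀ K ∈ Cont L, s ≤ lowerMinkowski (K : Set (E n))) ↔ ∀ t : ℝ, t < s → NbhdBound L (pp n t) := by
  constructor
  · intro h t hts
    rw [(nbhd_law hL (pp_pos _)).1]
    intro K hK hv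
    exact absurd ((h K hK).trans (le_of_thin K.isCompact K.nonempty hv)) (not_le.2 hts)
  · intro h K hK
    by_contra hcon
    push Not at hcon
    obtain ⟨t, ht1, ht2⟩ := exists_between hcon
    exact ((nbhd_law hL (pp_pos _)).1.1 (h t ht2)) K hK (thin_of_lt K.isCompact K.nonempty ht1)

end Pool.Agent.X91.TK
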