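import Pool.Agent.X91.TK.Dim

set_option autoImplicit false
open MeasureTheory Set Metric Filter Topology TopologicalSpace
open scoped ENNReal NNReal

namespace Pool.Agent.X91.TK

variable {n : ℕ}

theorem net {K : Set (E n)} (hK : IsCompact K) {δ : ℝ} (hδ : 0 < δ) :
    ∃ F : Finset (E n), K ⊆ ⋃ x ∈ F, ball x δ ∧
      (F.card : ℝ≥0∞) * volume (ball (0 : E n) (δ / 4)) ≤ volume (thickening δ K) := by
  classical
  obtain ⟨ε, hε⟩ : ∃ ε : ℝ≥0, (ε : ℝ) = δ / 4 := ⟨⟨δ / 4, by positivity⟩, rfl⟩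
  have hε0 : ε ≠ 0 := by
    rintro rfl
    rw [NNReal.coe_zero] at hε
    linarith
  obtain ⟨C, hCK, hCf, hC⟩ := exists_finite_isCover_of_isCompact hε0 hK
  have hp : packingNumber (2 * ε) K ≠ ⊤ := by
    refine ne_top_of_le_ne_top ?_ (packingNumber_two_mul_le_externalCoveringNumber ε K)
    exact ne_top_of_le_ne_top hCf.encard_lt_top.ne hC.externalCoveringNumber_le_encard
  have hcov := isCover_maximalSeparatedSet hp
  have hsep := isSeparated_maximalSeparatedSet (ε := 2 * ε) (A := K)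
  have hsub := maximalSeparatedSet_subset (ε := 2 * ε) (A := K)
  have hDf : (maximalSeparatedSet (2 * ε) K).Finite := by
    rw [← Set.encard_ne_top_iff, encard_maximalSeparatedSet hp]
    exact hp
  obtain ⟨D, hD⟩ : ∃ D : Finset (E n), (D : Set (E n)) = maximalSeparatedSet (2 * ε) K :=
    ⟨hDf.toFinset, by simp⟩
  rw [← hD] at hcov hsep hsub
  have h2 : ((2 * ε : ℝ≥0) : ℝ) = δ / 2 := by push_cast; rw [hε]; ring
  refine ⟨D, ?_, ?_⟩
  · intro y hy
    have := isCover_iff_subset_iUnion_closedBall.1 hcov hy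
    obtain ⟨x, hx, hxy⟩ := mem_iUnion₂.1 this
    refine mem_iUnion₂.2 ⟨x, hx, ?_⟩
    rw [mem_closedBall, h2] at hxy
    rw [mem_ball]
    linarith
  · have hdisj : (D : Set (E n)).PairwiseDisjoint (fun x => ball x (δ / 4)) := by
      intro x hx y hy hxy
      have h3 := hsep hx hy hxy
      simp only at h3
      have h4 : δ / 2 < dist x y := by
        rw [edist_dist] at h3
        have h5 : ((2 * ε : ℝ≥0) : ℝ≥0∞) = ENNReal.ofReal (δ / 2) := by
          rw [← h2, ENNReal.ofReal_coe_nnreal]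
        rw [h5] at h3
        exact (ENNReal.ofReal_lt_ofReal_iff_of_nonneg (by positivity)).1 h3
      exact ball_disjoint_ball (by linarith)
    have hU : (⋃ x ∈ D, ball x (δ / 4)) ⊆ thickening δ K := by
      refine iUnion₂_subset fun x hx y hy => ?_
      rw [mem_ball] at hy
      exact mem_thickening_iff.2 ⟨x, hsub hx, by linarith⟩
    refine le_trans (le_of_eq ?_) (measure_mono hU)
    rw [measure_biUnion_finset hdisj (fun x _ => isOpen_ball.measurableSet)]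
    have : ∀ x ∈ D, volume (ball x (δ / 4)) = volume (ball (0 : E n) (δ / 4)) := fun x _ =>
      Measure.addHaar_ball_center volume x (δ / 4)
    rw [Finset.sum_congr rfl this, Finset.sum_const, nsmul_eq_mul]

open Classical in
/-- The weight which only admits balls of radius `δ`. -/
noncomputable def wt (n : ℕ) (Φ : ℝ → ℝ) (δ : ℝ) : ℝ → ℝ≥0∞ :=
  fun r => if r = δ then volume (ball (0 : E n) δ) / ENNReal.ofReal (Φ δ) else ⊤

theorem vol_ball_mul {a : ℝ} (ha : 0 < a) (δ : ℝ) :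
    volume (ball (0 : E n) (a * δ)) = ENNReal.ofReal (a ^ n) * volume (ball (0 : E n) δ) := by
  rw [Measure.addHaar_ball_mul_of_pos (volume : Measure (E n)) (0 : E n) ha δ]
  simp

theorem vol_pos {δ : ℝ} (hδ : 0 < δ) : 0 < volume (ball (0 : E n) δ) := measure_ball_pos _ _ hδ

theorem vol_ne_top {δ : ℝ} : volume (ball (0 : E n) δ) ≠ ⊤ := measure_ball_lt_top.ne

theorem vol_le_of_small {K : Set (E n)} {Φ : ℝ → ℝ} {δ : ℝ} (hδ : 0 < δ) (hΦ : 0 < Φ δ)
    {c : ℝ≥0∞} (h : Small (wt n Φ δ) c K) :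
    volume (thickening δ K) ≤ ENNReal.ofReal (2 ^ n) * (c * ENNReal.ofReal (Φ δ)) := by
  classical
  obtain ⟨N, x, r, hcov, hsum⟩ := h
  have hr : ∀ i, r i = δ := by
    intro i
    by_contra hne
    have h1 : wt n Φ δ (r i) = ⊤ := by rw [wt, if_neg hne]
    have h2 : wt n Φ δ (r i) ≤ ∑ i, wt n Φ δ (r i) :=
      Finset.single_le_sum (f := fun i => wt n Φ δ (r i)) (fun _ _ => zero_le)
        (Finset.mem_univ i)
    rw [h1] at h2
    exact absurd (h2.trans_lt hsum) (not_lt.2 le_top)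
  have h1 : ∑ i, wt n Φ δ (r i) = N * (volume (ball (0 : E n) δ) / ENNReal.ofReal (Φ δ)) := by
    have : ∀ i, wt n Φ δ (r i) = volume (ball (0 : E n) δ) / ENNReal.ofReal (Φ δ) := by
      intro i
      rw [hr i, wt, if_pos rfl]
    rw [Finset.sum_congr rfl fun i _ => this i]
    simp
  have hΦ0 : ENNReal.ofReal (Φ δ) ≠ 0 := (ENNReal.ofReal_pos.2 hΦ).ne'
  have h2 : (N : ℝ≥0∞) * volume (ball (0 : E n) δ) ≤ c * ENNReal.ofReal (Φ δ) := by
    rw [h1, ← mul_div_assoc] at hsum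
    exact (ENNReal.div_le_iff hΦ0 ENNReal.ofReal_ne_top).1 hsum.le
  have h3 : thickening δ K ⊆ ⋃ i, ball (x i) (2 * δ) := by
    intro y hy
    obtain ⟨z, hz, hyz⟩ := mem_thickening_iff.1 hy
    obtain ⟨i, hi⟩ := mem_iUnion.1 (hcov hz)
    refine mem_iUnion.2 ⟨i, ?_⟩
    rw [mem_ball, hr i] at hi
    rw [mem_ball]
    have := dist_triangle y z (x i)
    linarith
  calc volume (thickening δ K) ≤ ∑ i, volume (ball (x i) (2 * δ)) :=
        (measure_mono h3).trans (measure_iUnion_fintype_le _ _)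
    _ = N * (ENNReal.ofReal (2 ^ n) * volume (ball (0 : E n) δ)) := by
        have : ∀ i, volume (ball (x i) (2 * δ)) =
            ENNReal.ofReal (2 ^ n) * volume (ball (0 : E n) δ) := by
          intro i
          rw [Measure.addHaar_ball_center, vol_ball_mul two_pos]
        rw [Finset.sum_congr rfl fun i _ => this i]
        simp
    _ = ENNReal.ofReal (2 ^ n) * (N * volume (ball (0 : E n) δ)) := by ring
    _ ≤ _ := by gcongr

theorem small_of_vol_lt {K : Set (E n)} (hK : IsCompact K) {Φ : ℝ → ℝ} {δ : ℝ} (hδ : 0 < δ)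
    (hΦ : 0 < Φ δ) {c : ℝ≥0∞} (h : volume (thickening δ K) < c * ENNReal.ofReal (Φ δ)) :
    Small (wt n Φ δ) (ENNReal.ofReal (4 ^ n) * c) K := by
  classical
  obtain ⟨F, hF, hFc⟩ := net hK hδ
  refine small_of_fintype (ι := F) (fun x => x.1) (fun _ => δ) ?_ ?_
  · intro y hy
    obtain ⟨x, hx, hxy⟩ := mem_iUnion₂.1 (hF hy)
    exact mem_iUnion.2 ⟨⟨x, hx⟩, hxy⟩
  · have hΦ0 : ENNReal.ofReal (Φ δ) ≠ 0 := (ENNReal.ofReal_pos.2 hΦ).ne'
    have h1 : wt n Φ δ δ = volume (ball (0 : E n) δ) / ENNReal.ofReal (Φ δ) := by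
      rw [wt, if_pos rfl]
    have h2 : volume (ball (0 : E n) δ) =
        ENNReal.ofReal (4 ^ n) * volume (ball (0 : E n) (δ / 4)) := by
      rw [← vol_ball_mul (by norm_num : (0 : ℝ) < 4)]
      congr 2
      ring
    simp only [Finset.sum_const, Finset.card_univ, Fintype.card_coe, nsmul_eq_mul, h1]
    rw [h2, ← mul_div_assoc, ENNReal.div_lt_iff (Or.inl hΦ0) (Or.inl ENNReal.ofReal_ne_top)]
    calc (F.card : ℝ≥0∞) * (ENNReal.ofReal (4 ^ n) * volume (ball (0 : E n) (δ / 4)))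
        = ENNReal.ofReal (4 ^ n) * (F.card * volume (ball (0 : E n) (δ / 4))) := by ring
      _ < ENNReal.ofReal (4 ^ n) * (c * ENNReal.ofReal (Φ δ)) := by
          exact (ENNReal.mul_lt_mul_iff_right (ENNReal.ofReal_pos.2 (by positivity)).ne'
            ENNReal.ofReal_ne_top).2 (hFc.trans_lt h)
      _ = _ := by ring

/-- A uniform lower bound for the volumes of neighbourhoods. -/
def NbhdBound (L : Set (Set (E n))) (Φ : ℝ → ℝ) : Prop :=
  ∃ c : ℝ, 0 < c ∧ ∀ K ∈ Cont L, ∀ δ : ℝ, 0 < δ → δ < 1 →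
    ENNReal.ofReal (c * Φ δ) ≤ volume (thickening δ (K : Set (E n)))

/-- Neighbourhoods of `K` are small at some scales. -/
def Thin (Φ : ℝ → ℝ) (K : Set (E n)) : Prop :=
  ∀ c : ℝ, 0 < c → ∃ δ : ℝ, 0 < δ ∧ δ < 1 ∧ volume (thickening δ K) < ENNReal.ofReal (c * Φ δ)

/-- The family of weights. -/
def WW (n : ℕ) (Φ : ℝ → ℝ) : Set (ℝ → ℝ≥0∞) := {ψ | ∃ δ : ℝ, 0 < δ ∧ δ < 1 ∧ ψ = wt n Φ δ}

theorem thin_iff {Φ : ℝ → ℝ} (hΦ : ∀ δ, 0 < δ → δ < 1 → 0 < Φ δ) {K : Set (E n)}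
    (hK : IsCompact K) : Thin Φ K ↔ Vanishing (WW n Φ) K := by
  constructor
  · intro h c hc
    obtain ⟨c', hc'0, hc'⟩ := ENNReal.lt_iff_exists_nnreal_btwn.1 hc
    have hc'0 : 0 < c' := by exact_mod_cast hc'0
    obtain ⟨δ, hδ, hδ1, hv⟩ := h (c' / 4 ^ n) (by positivity)
    refine ⟨wt n Φ δ, ⟨δ, hδ, hδ1, rfl⟩, ?_⟩
    rw [ENNReal.ofReal_mul (by positivity)] at hv
    have h1 := small_of_vol_lt hK hδ (hΦ δ hδ hδ1) hv
    refine h1.mono (le_refl _) (le_trans (le_of_eq ?_) hc'.le)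
    rw [← ENNReal.ofReal_mul (by positivity), mul_div_cancel₀ _ (by positivity),
      ENNReal.ofReal_coe_nnreal]
  · intro h c hc
    obtain ⟨ψ, ⟨δ, hδ, hδ1, rfl⟩, hs⟩ := h (ENNReal.ofReal (c / 2 ^ (n + 1)))
      (ENNReal.ofReal_pos.2 (by positivity))
    refine ⟨δ, hδ, hδ1, ?_⟩
    have hp := hΦ δ hδ hδ1
    refine (vol_le_of_small hδ hp hs).trans_lt ?_
    rw [← ENNReal.ofReal_mul (by positivity), ← ENNReal.ofReal_mul (by positivity)]
    have e1 : (2 : ℝ) ^ n * (c / 2 ^ (n + 1) * Φ δ) = c * Φ δ / 2 := by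
      rw [pow_succ]; field_simp
    rw [e1]
    exact (ENNReal.ofReal_lt_ofReal_iff (by positivity)).2 (by linarith [mul_pos hc hp])

theorem nbhd_iff {L : Set (Set (E n))} {Φ : ℝ → ℝ} (hΦ : ∀ δ, 0 < δ → δ < 1 → 0 < Φ δ) :
    NbhdBound L Φ ↔ Uniform L (WW n Φ) := by
  constructor
  · rintro ⟨c, hc, h⟩
    refine ⟨ENNReal.ofReal (c / 2 ^ (n + 1)), ENNReal.ofReal_pos.2 (by positivity), ?_⟩
    rintro K hK ψ ⟨δ, hδ, hδ1, rfl⟩ hs
    have hp := hΦ δ hδ hδ1
    have h1 := (h K hK δ hδ hδ1).trans (vol_le_of_small hδ hp hs)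
    rw [← ENNReal.ofReal_mul (by positivity), ← ENNReal.ofReal_mul (by positivity)] at h1
    have e1 : (2 : ℝ) ^ n * (c / 2 ^ (n + 1) * Φ δ) = c * Φ δ / 2 := by
      rw [pow_succ]; field_simp
    rw [e1, ENNReal.ofReal_le_ofReal_iff (by positivity)] at h1
    linarith [mul_pos hc hp]
  · rintro ⟨c, hc, h⟩
    obtain ⟨c', hc'0, hc'⟩ := ENNReal.lt_iff_exists_nnreal_btwn.1 hc
    have hc'0 : 0 < c' := by exact_mod_cast hc'0
    refine ⟨c' / 4 ^ n, by positivity, fun K hK δ hδ hδ1 => ?_⟩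
    by_contra hcon
    push Not at hcon
    rw [ENNReal.ofReal_mul (by positivity)] at hcon
    have h1 := small_of_vol_lt K.isCompact hδ (hΦ δ hδ hδ1) hcon
    refine h K hK _ ⟨δ, hδ, hδ1, rfl⟩ (h1.mono (le_refl _) (le_trans (le_of_eq ?_) hc'.le))
    rw [← ENNReal.ofReal_mul (by positivity), mul_div_cancel₀ _ (by positivity),
      ENNReal.ofReal_coe_nnreal]

/-- **Law for neighbourhoods.** -/
theorem nbhd_law {L : Set (Set (E n))} (hL : ∀ l ∈ L, l ⊆ closedBall (0 : E n) 1)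
    {Φ : ℝ → ℝ} (hΦ : ∀ δ, 0 < δ → δ < 1 → 0 < Φ δ) :
    (NbhdBound L Φ ↔ ∀ K ∈ Cont L, ¬ Thin Φ (K : Set (E n))) ∧
    (¬ NbhdBound L Φ → ∀ᶠ K : Cont L in residual (Cont L), Thin Φ (K.1 : Set (E n))) := by
  rw [nbhd_iff hΦ]
  obtain ⟨h1, h2⟩ := law hL (WW n Φ)
  refine ⟨?_, ?_⟩
  · rw [h1]
    refine forall₂_congr fun K _ => ?_
    rw [thin_iff hΦ K.isCompact]
  · intro h
    filter_upwards [h2 h] with K hK
    exact (thin_iff hΦ K.1.isCompact).2 hK

end Pool.Agent.X91.TK
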