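import Pool.Agent.X91.TK.LowMink

set_option autoImplicit false
open MeasureTheory Set Metric Filter Topology TopologicalSpace
open scoped ENNReal NNReal

namespace Pool.Agent.X91.TK

variable {n : ℕ}

/-- The open set. -/
def VV (L : Set (Set (E n))) (h : ℝ → ℝ) (U : Set (E n)) (m : ℕ) : Set (Cont L) :=
  {K | ∃ (x : E n) (ρ δ : ℝ), 0 < ρ ∧ 0 < δ ∧ δ < 1 / ((m : ℝ) + 1) ∧ ball x (ρ + δ) ⊆ U ∧
    1 ≤ ENNReal.ofReal (h δ) * volume (ball x ρ) ∧
    ∃ K₁ : Cont L, closedBall x ρ ⊆ (K₁.1 : Set (E n)) ∧ dist K K₁ < δ}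

theorem isOpen_VV (L : Set (Set (E n))) (h : ℝ → ℝ) (U : Set (E n)) (m : ℕ) :
    IsOpen (VV L h U m) := by
  rw [Metric.isOpen_iff]
  rintro K ⟨x, ρ, δ, h1, h2, h3, h4, h5, K₁, h6, h7⟩
  refine ⟨δ - dist K K₁, by linarith, fun K' hK' => ⟨x, ρ, δ, h1, h2, h3, h4, h5, K₁, h6, ?_⟩⟩
  rw [mem_ball] at hK'
  have := dist_triangle K' K K₁
  linarith

theorem VV_vol {L : Set (Set (E n))} {h : ℝ → ℝ} {U : Set (E n)} {m : ℕ} {K : Cont L}
    (hK : K ∈ VV L h U m) : ∃ δ : ℝ, 0 < δ ∧ δ < 1 / ((m : ℝ) + 1) ∧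
      1 ≤ ENNReal.ofReal (h δ) * volume (thickening δ ((K.1 : Set (E n)) ∩ U)) := by
  obtain ⟨x, ρ, δ, h1, h2, h3, h4, h5, K₁, h6, h7⟩ := hK
  refine ⟨δ, h2, h3, h5.trans ?_⟩
  gcongr
  intro y hy
  rw [Subtype.dist_eq, dist_comm, NonemptyCompacts.dist_eq] at h7
  obtain ⟨z, hz, hyz⟩ := exists_dist_lt_of_hausdorffDist_lt (h6 (ball_subset_closedBall hy)) h7
    (hausdorffEDist_ne_top_of_nonempty_of_bounded K₁.1.nonempty K.1.nonempty
      K₁.1.isCompact.isBounded K.1.isCompact.isBounded)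
  refine mem_thickening_iff.2 ⟨z, ⟨hz, h4 ?_⟩, hyz⟩
  rw [mem_ball] at hy ⊢
  have := dist_triangle z y x
  rw [dist_comm z y] at this
  linarith

theorem dense_VV (L : Set (Set (E n))) {h : ℝ → ℝ} (hh : Tendsto h (𝓝[>] 0) atTop)
    {U : Set (E n)} (hU : IsOpen U) (m : ℕ) :
    Dense (VV L h U m ∪ interior {K : Cont L | (K.1 : Set (E n)) ∩ U = ∅}) := by
  rw [Metric.dense_iff]
  intro K₀ ε hε
  by_cases hcase : ∀ K ∈ ball K₀ ε, ((K : Cont L).1 : Set (E n)) ∩ U = ∅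
  · refine ⟨K₀, mem_ball_self hε, Or.inr ?_⟩
    rw [mem_interior]
    exact ⟨ball K₀ ε, fun K hK => hcase K hK, isOpen_ball, mem_ball_self hε⟩
  · push Not at hcase
    obtain ⟨K, hK, hne⟩ := hcase
    obtain ⟨p, hpK, hpU⟩ := hne
    obtain ⟨r, hr, hrU⟩ := Metric.isOpen_iff.1 hU p hpU
    rw [mem_ball] at hK
    set ρ : ℝ := min (r / 2) ((ε - dist K K₀) / 2) with hρ
    have hρ0 : 0 < ρ := lt_min (by linarith) (by linarith)
    have hρr : ρ ≤ r / 2 := min_le_left _ _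
    have hρε : ρ ≤ (ε - dist K K₀) / 2 := min_le_right _ _
    -- the enlarged set
    set T : Set (E n) := (K.1 : Set (E n)) ∪ closedBall p ρ with hT
    have hTc : IsCompact T := K.1.isCompact.union (isCompact_closedBall p ρ)
    have hTne : T.Nonempty := ⟨p, Or.inl hpK⟩
    set K₁' : NonemptyCompacts (E n) := ⟨⟨T, hTc⟩, hTne⟩ with hK₁'
    have hcont : K₁' ∈ Cont L := by
      intro l hl
      obtain ⟨x, hx⟩ := K.2 l hl
      exact ⟨x, fun y hy => Or.inl (hx y hy)⟩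
    set K₁ : Cont L := ⟨K₁', hcont⟩ with hK₁
    have hd : dist K₁ K ≤ ρ := by
      rw [Subtype.dist_eq, NonemptyCompacts.dist_eq]
      apply hausdorffDist_le_of_mem_dist hρ0.le
      · rintro y (hy | hy)
        · exact ⟨y, hy, by simpa using hρ0.le⟩
        · exact ⟨p, hpK, hy⟩
      · intro y hy
        exact ⟨y, Or.inl hy, by simpa using hρ0.le⟩
    have hv0 : volume (ball p ρ) ≠ 0 := (measure_ball_pos _ _ hρ0).ne'
    have hvt : volume (ball p ρ) ≠ ⊤ := measure_ball_lt_top.ne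
    have hev1 : ∀ᶠ δ in 𝓝[>] (0 : ℝ), (volume (ball p ρ)).toReal⁻¹ ≤ h δ :=
      hh.eventually (eventually_ge_atTop _)
    have hev2 : ∀ᶠ δ : ℝ in 𝓝[>] (0 : ℝ), 0 < δ ∧ δ < min (1 / ((m : ℝ) + 1)) (r / 2) :=
      Ioo_mem_nhdsGT (lt_min (by positivity) (by linarith))
    obtain ⟨δ, h1, h2, h3⟩ := (hev1.and hev2).exists
    have h3a := h3.trans_le (min_le_left _ _)
    have h3b := h3.trans_le (min_le_right _ _)
    refine ⟨K₁, ?_, Or.inl ⟨p, ρ, δ, hρ0, h2, h3a, ?_, ?_, K₁, ?_, ?_⟩⟩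
    · rw [mem_ball]
      have := dist_triangle K₁ K K₀
      linarith
    · exact (ball_subset_ball (by linarith)).trans hrU
    · have h4 : (volume (ball p ρ))⁻¹ ≤ ENNReal.ofReal (h δ) := by
        rw [← ENNReal.ofReal_toReal (ENNReal.inv_ne_top.2 hv0), ENNReal.toReal_inv]
        exact ENNReal.ofReal_le_ofReal h1
      calc (1 : ℝ≥0∞) = (volume (ball p ρ))⁻¹ * volume (ball p ρ) :=
            (ENNReal.inv_mul_cancel hv0 hvt).symm
        _ ≤ _ := by gcongr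
    · exact subset_union_right
    · rw [dist_self]
      exact h2

/-- All portions of typical sets are large at some scales. -/
theorem portions (L : Set (Set (E n))) {h : ℝ → ℝ} (hh : Tendsto h (𝓝[>] 0) atTop) :
    ∀ᶠ K : Cont L in residual (Cont L), ∀ (x : E n) (r : ℝ),
      ((K.1 : Set (E n)) ∩ ball x r).Nonempty → ∃ᶠ δ in 𝓝[>] (0 : ℝ),
        1 ≤ ENNReal.ofReal (h δ) * volume (thickening δ ((K.1 : Set (E n)) ∩ ball x r)) := by
  have hall : ∀ᶠ K : Cont L in residual (Cont L), ∀ U ∈ countableBasis (E n), ∀ m : ℕ,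
      K ∈ VV L h U m ∪ interior {K : Cont L | (K.1 : Set (E n)) ∩ U = ∅} := by
    rw [eventually_countable_ball (countable_countableBasis (E n))]
    intro U hU
    rw [eventually_countable_forall]
    intro m
    exact residual_of_dense_open ((isOpen_VV L h U m).union isOpen_interior)
      (dense_VV L hh (isOpen_of_mem_countableBasis hU) m)
  filter_upwards [hall] with K hK x r hne
  obtain ⟨p, hpK, hpx⟩ := hne
  obtain ⟨U, hU, hpU, hUx⟩ := (isBasis_countableBasis (E n)).exists_subset_of_mem_open hpx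
    isOpen_ball
  rw [Filter.frequently_iff]
  intro s hs
  obtain ⟨ε, hε, hεs⟩ := mem_nhdsGT_iff_exists_Ioo_subset.1 hs
  have hε : 0 < ε := hε
  obtain ⟨m, hm⟩ := exists_nat_one_div_lt hε
  rcases hK U hU m with hV | hI
  · obtain ⟨δ, h1, h2, h3⟩ := VV_vol hV
    refine ⟨δ, hεs ⟨h1, h2.trans hm⟩, h3.trans ?_⟩
    gcongr
    exact thickening_subset_of_subset _ (inter_subset_inter_right _ hUx)
  · exfalso
    have := interior_subset hI
    have h1 : (K.1 : Set (E n)) ∩ U = ∅ := this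
    have h2 : p ∈ (K.1 : Set (E n)) ∩ U := ⟨hpK, hpU⟩
    rw [h1] at h2
    exact h2

end Pool.Agent.X91.TK
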